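import Pool.Agent.H40.OC.Final

set_option autoImplicit false

/-- For every `k ≥ 1` there is a constant `C` such that for every `n ≥ 2` there is a family of at
least `2 ^ n / n ^ C` Hamiltonian paths on `n` vertices, any two of which together contain a
cycle of length `2 k + 1`. -/
theorem Pool.Agent.Results.MP_969d96_co.PolyLossAllK.result :
    ∀ k : ℕ, 1 ≤ k → ∃ C : ℕ, ∀ n : ℕ, 2 ≤ n →
      ∃ F : Finset (SimpleGraph (Fin n)),
        (∀ P ∈ F, Nonempty (SimpleGraph.pathGraph n ≃g P)) ∧
        (F : Set (SimpleGraph (Fin n))).Pairwise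
          (fun P Q => ∃ v : Fin n, ∃ w : (P ⊔ Q).Walk v v, w.IsCycle ∧ w.length = 2 * k + 1) ∧
        2 ^ n ≤ n ^ C * F.card :=
  fun k hk => Pool.Agent.H40OC.main k hk
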